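import Pool.Agent.H33.HH.TC

set_option autoImplicit false

open NumberField Complex Filter Topology MeasureTheory
open scoped ContDiff nonZeroDivisors

namespace Pool.Agent.H59.HH.GLA

open Pool.Agent.H33.HH Pool.Agent.H28.RC Pool.Agent.H37.CV

variable {K : Type} [Field K] [NumberField K]

theorem fin_norm (x : ℝ) : {I : Ideal (𝓞 K) | nm I ≤ x}.Finite := by
  have h := Ideal.finite_setOfPred_absNorm_le (S := 𝓞 K) ⌊x⌋₊
  refine h.subset fun I hI => ?_
  exact Nat.le_floor hI

theorem mem_PM {M : ℝ} {p : PrI K} : p ∈ PM K M ↔ np p ≤ M := by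
  have h : {P : PrI K | np P ≤ M}.Finite :=
    Set.Finite.preimage (f := fun P : PrI K => P.1) (Subtype.val_injective.injOn) (fin_norm M)
  unfold PM
  rw [dif_pos h]
  simp

theorem mem_AP {P y : ℝ} {p : PrI K} : p ∈ AP K P y ↔ np p ≤ y ∧ P < np p := by
  unfold AP
  simp [mem_PM]

theorem nm_mul (I J : Ideal (𝓞 K)) : nm (I * J) = nm I * nm J := by
  unfold nm; rw [map_mul]; push_cast; ring

theorem nm_idS (S : Finset (PrI K)) : nm (idS S) = nS np S := by
  unfold nm idS nS
  rw [map_prod]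
  push_cast
  rfl

theorem nm_pow (I : Ideal (𝓞 K)) (n : ℕ) : nm (I ^ n) = nm I ^ n := by
  unfold nm; rw [map_pow]; push_cast; ring

theorem nm_pos {I : Ideal (𝓞 K)} (h : I ≠ ⊥) : 0 < nm I := by
  unfold nm
  have : 0 < Ideal.absNorm I := Nat.pos_of_ne_zero (by
    intro h0; exact h (Ideal.absNorm_eq_zero_iff.1 h0))
  exact_mod_cast this

theorem nm_one_le {I : Ideal (𝓞 K)} (h : I ≠ ⊥) : 1 ≤ nm I := by
  have h1 := nm_pos h
  unfold nm at *
  exact_mod_cast h1

theorem np_gt_one (p : PrI K) : 1 < np p := by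
  have h1 : Ideal.absNorm p.1 ≠ 1 := by
    intro h
    exact p.2.1.ne_top (Ideal.absNorm_eq_one_iff.1 h)
  have h2 : Ideal.absNorm p.1 ≠ 0 := by
    intro h
    exact p.2.2 (Ideal.absNorm_eq_zero_iff.1 h)
  have h3 : 1 < Ideal.absNorm p.1 := by omega
  unfold np nm
  exact_mod_cast h3

theorem dvd_nm_le {I J : Ideal (𝓞 K)} (h : I ∣ J) (hJ : J ≠ ⊥) : nm I ≤ nm J := by
  obtain ⟨L, rfl⟩ := h
  have hL : L ≠ ⊥ := by rintro rfl; simp at hJ
  have hI : I ≠ ⊥ := by rintro rfl; simp at hJ
  rw [nm_mul]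
  have := nm_one_le hL
  nlinarith [nm_pos hI]

theorem cop {p q : PrI K} (h : p ≠ q) : IsCoprime p.1 q.1 := by
  rw [Ideal.isCoprime_iff_sup_eq]
  refine Ideal.IsMaximal.coprime_of_ne (p.2.1.isMaximal p.2.2) (q.2.1.isMaximal q.2.2) ?_
  intro h1; exact h (Subtype.ext h1)

open scoped Classical in
theorem dvd_iff {A B : Finset (PrI K)} (h : Disjoint A B) (I : Ideal (𝓞 K)) :
    idS A * idS B ^ 2 ∣ I ↔ (∀ p ∈ A, p.1 ∣ I) ∧ ∀ p ∈ B, p.1 ^ 2 ∣ I := by
  constructor
  · intro h1
    refine ⟨fun p hp => ?_, fun p hp => ?_⟩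
    · exact ((Finset.dvd_prod_of_mem (fun P : PrI K => P.1) hp).trans (Dvd.intro _ rfl)).trans h1
    · have h2 : p.1 ∣ idS B := Finset.dvd_prod_of_mem (fun P : PrI K => P.1) hp
      exact ((pow_dvd_pow_of_dvd h2 2).trans (Dvd.intro_left _ rfl)).trans h1
  · rintro ⟨h1, h2⟩
    have e : idS A * idS B ^ 2 = ∏ p ∈ A ∪ B, p.1 ^ (if p ∈ B then 2 else 1) := by
      rw [Finset.prod_union h]
      congr 1
      · unfold idS
        refine Finset.prod_congr rfl fun p hp => ?_
        rw [if_neg (Finset.disjoint_left.1 h hp), pow_one]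
      · unfold idS
        rw [← Finset.prod_pow]
        refine Finset.prod_congr rfl fun p hp => ?_
        rw [if_pos hp]
    rw [e]
    refine Finset.prod_dvd_of_coprime ?_ ?_
    · intro p _ q _ hpq
      exact (cop hpq).pow
    · intro p hp
      rcases Finset.mem_union.1 hp with hp | hp
      · rw [if_neg (Finset.disjoint_left.1 h hp), pow_one]
        exact h1 p hp
      · rw [if_pos hp]
        exact h2 p hp

theorem idS_ne (S : Finset (PrI K)) : idS S ≠ ⊥ := by
  have h : (∏ P ∈ S, (P : PrI K).1) ≠ 0 := by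
    rw [Finset.prod_ne_zero_iff]
    intro p _
    exact p.2.2
  exact h

theorem le_prime_prod {S : Finset (PrI K)} {p : PrI K} (h : idS S ≤ p.1) : p ∈ S := by
  unfold idS at h
  rw [p.2.1.prod_le] at h
  obtain ⟨q, hq, h1⟩ := h
  have h2 : q.1 = p.1 := (q.2.1.isMaximal q.2.2).eq_of_le p.2.1.ne_top h1
  have : q = p := Subtype.ext h2
  rwa [← this]

theorem Cp_mul {P : ℝ} {I J : Ideal (𝓞 K)} : Cp P (I * J) ↔ Cp P I ∧ Cp P J := by
  constructor
  · intro h
    exact ⟨fun p hp => h p (Ideal.mul_le_left.trans hp), fun p hp => h p (Ideal.mul_le_right.trans hp)⟩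
  · rintro ⟨h1, h2⟩ p hp
    rcases (p.2.1.mul_le).1 hp with h | h
    · exact h1 p h
    · exact h2 p h

theorem Cp_idS {P y : ℝ} {S : Finset (PrI K)} (h : S ⊆ AP K P y) : Cp P (idS S) := by
  intro p hp
  exact (mem_AP.1 (h (le_prime_prod hp))).2

theorem Cp_D {P y : ℝ} {A B : Finset (PrI K)} (hA : A ⊆ AP K P y) (hB : B ⊆ AP K P y) :
    Cp P (idS A * idS B ^ 2) := by
  rw [Cp_mul, pow_two, Cp_mul]
  exact ⟨Cp_idS hA, Cp_idS hB, Cp_idS hB⟩

/-- the finite set of the ideals -/
theorem fin_N (P y : ℝ) : {I : Ideal (𝓞 K) | I ≠ ⊥ ∧ Cp P I ∧ nm I ≤ y}.Finite :=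
  (fin_norm y).subset fun _ h => h.2.2

open scoped Classical in
/-- the sum over the multiples of an ideal -/
theorem mult_sum {P y : ℝ} {D : Ideal (𝓞 K)} (hD : D ≠ ⊥) (hc : Cp P D) :
    ∑ I ∈ (fin_N (K := K) P y).toFinset, (if D ∣ I then (nm I)⁻¹ else 0) =
      (nm D)⁻¹ * if nm D ≤ y then hs K P (y / nm D) else 0 := by
  classical
  by_cases h : nm D ≤ y
  · rw [if_pos h]
    unfold hs
    rw [finsum_mem_eq_finite_toFinset_sum _ (fin_N (K := K) P (y / nm D)), Finset.mul_sum,
      ← Finset.sum_filter]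
    symm
    refine Finset.sum_bij (fun J _ => D * J) ?_ ?_ ?_ ?_
    · intro J hJ
      simp only [Set.Finite.mem_toFinset, Set.mem_ofPred_eq, Finset.mem_filter] at hJ ⊢
      refine ⟨⟨?_, Cp_mul.2 ⟨hc, hJ.2.1⟩, ?_⟩, Dvd.intro _ rfl⟩
      · rw [← Ideal.zero_eq_bot]
        exact mul_ne_zero hD hJ.1
      · rw [nm_mul]
        have := hJ.2.2
        rw [le_div_iff₀ (nm_pos hD)] at this
        linarith [mul_comm (nm J) (nm D)]
    · intro J _ J' _ hJJ
      exact mul_left_cancel₀ (a := D) hD hJJ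
    · intro I hI
      simp only [Set.Finite.mem_toFinset, Set.mem_ofPred_eq, Finset.mem_filter] at hI
      obtain ⟨⟨h1, h2, h3⟩, J, rfl⟩ := hI
      refine ⟨J, ?_, rfl⟩
      simp only [Set.Finite.mem_toFinset, Set.mem_ofPred_eq]
      refine ⟨?_, (Cp_mul.1 h2).2, ?_⟩
      · rintro rfl
        exact h1 (by simp)
      · rw [le_div_iff₀ (nm_pos hD)]
        rw [nm_mul] at h3
        linarith [mul_comm (nm J) (nm D)]
    · intro J _
      rw [nm_mul, mul_inv]
  · rw [if_neg h, mul_zero]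
    refine Finset.sum_eq_zero fun I hI => ?_
    simp only [Set.Finite.mem_toFinset, Set.mem_ofPred_eq] at hI
    rw [if_neg]
    intro hd
    exact h ((dvd_nm_le hd hI.1).trans hI.2.2)

open scoped Classical in
/-- the sum over the pairs at an ideal -/
theorem pair_sum (X : Finset (PrI K)) (I : Ideal (𝓞 K)) :
    ∑ A ∈ X.powerset, ∑ B ∈ (X \ A).powerset, gw A B * (nS np A * nS np B ^ 2) *
      (if idS A * idS B ^ 2 ∣ I then (1 : ℝ) else 0) =
    ∏ p ∈ X, ((if p.1 ∣ I then (np p - 1)⁻¹ else 0) +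
      (1 + if p.1 ^ 2 ∣ I then -(np p / (np p - 1)) else 0)) := by
  rw [Finset.prod_add]
  refine Finset.sum_congr rfl fun A hA => ?_
  rw [Finset.prod_one_add, Finset.mul_sum]
  refine Finset.sum_congr rfl fun B hB => ?_
  have hAB : Disjoint A B := by
    rw [Finset.mem_powerset] at hB
    exact Finset.disjoint_left.2 fun p hp hq => (Finset.mem_sdiff.1 (hB hq)).2 hp
  rw [Finset.prod_ite_zero, Finset.prod_ite_zero]
  by_cases h1 : ∀ p ∈ A, p.1 ∣ I
  · by_cases h2 : ∀ p ∈ B, p.1 ^ 2 ∣ I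
    · rw [if_pos h1, if_pos h2, if_pos ((dvd_iff hAB I).2 ⟨h1, h2⟩), mul_one]
      unfold gw fS nS
      have e1 : (∏ p ∈ A, (np p - 1)⁻¹) = (∏ p ∈ A, (np p - 1))⁻¹ := by
        rw [Finset.prod_inv_distrib]
      have e2 : (∏ p ∈ B, -(np p / (np p - 1))) =
          (-1) ^ B.card * ((∏ p ∈ B, np p) / ∏ p ∈ B, (np p - 1)) := by
        rw [← Finset.prod_div_distrib, ← Finset.prod_const, ← Finset.prod_mul_distrib]
        refine Finset.prod_congr rfl fun p _ => ?_
        ring
      rw [e1, e2]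
      have a1 : (∏ p ∈ A, np p) ≠ 0 := Finset.prod_ne_zero_iff.2 fun p _ =>
        (by have := np_gt_one p; positivity)
      have a2 : (∏ p ∈ B, np p) ≠ 0 := Finset.prod_ne_zero_iff.2 fun p _ =>
        (by have := np_gt_one p; positivity)
      have a3 : (∏ p ∈ A, (np p - 1)) ≠ 0 := Finset.prod_ne_zero_iff.2 fun p _ =>
        (by have := np_gt_one p; linarith)
      have a4 : (∏ p ∈ B, (np p - 1)) ≠ 0 := Finset.prod_ne_zero_iff.2 fun p _ =>
        (by have := np_gt_one p; linarith)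
      field_simp
    · rw [if_neg h2, if_neg (fun h => h2 ((dvd_iff hAB I).1 h).2)]
      ring
  · rw [if_neg h1, if_neg (fun h => h1 ((dvd_iff hAB I).1 h).1)]
    ring

open scoped Classical in
/-- the ideals with a square factor do not contribute, the others are products of primes -/
theorem val_sum {P y : ℝ} :
    ∑ I ∈ (fin_N (K := K) P y).toFinset, (nm I)⁻¹ *
      ∏ p ∈ AP K P y, ((if p.1 ∣ I then (np p - 1)⁻¹ else 0) +
        (1 + if p.1 ^ 2 ∣ I then -(np p / (np p - 1)) else 0)) =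
    GS np (AP K P y) y := by
  unfold GS
  symm
  refine Finset.sum_bij_ne_zero (fun S _ _ => idS S) ?_ ?_ ?_ ?_
  · intro S hS _
    unfold DS at hS
    rw [Finset.mem_filter, Finset.mem_powerset] at hS
    simp only [Set.Finite.mem_toFinset, Set.mem_ofPred_eq]
    exact ⟨idS_ne S, Cp_idS hS.1, by rw [nm_idS]; exact hS.2⟩
  · intro S hS _ T hT _ h
    ext p
    constructor
    · intro hp
      refine le_prime_prod ?_
      rw [← h]
      exact Ideal.le_of_dvd (Finset.dvd_prod_of_mem (fun P : PrI K => P.1) hp)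
    · intro hp
      refine le_prime_prod ?_
      rw [h]
      exact Ideal.le_of_dvd (Finset.dvd_prod_of_mem (fun P : PrI K => P.1) hp)
  · intro I hI hne
    simp only [Set.Finite.mem_toFinset, Set.mem_ofPred_eq] at hI
    obtain ⟨h1, h2, h3⟩ := hI
    have hsq : ∀ p ∈ AP K P y, ¬ p.1 ^ 2 ∣ I := by
      intro p hp hd
      apply hne
      rw [Finset.prod_eq_zero hp, mul_zero]
      have hd1 : p.1 ∣ I := (dvd_pow_self p.1 two_ne_zero).trans hd
      rw [if_pos hd, if_pos hd1]
      have := np_gt_one p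
      have h0 : np p - 1 ≠ 0 := by linarith
      field_simp
      ring
    set S : Finset (PrI K) := (AP K P y).filter (fun p => p.1 ∣ I) with hS
    have hSI : idS S ∣ I := by
      unfold idS
      refine Finset.prod_dvd_of_coprime ?_ ?_
      · intro p _ q _ hpq
        exact cop hpq
      · intro p hp
        exact (Finset.mem_filter.1 hp).2
    have key : idS S = I := by
      obtain ⟨J, hJ⟩ := hSI
      by_cases hJt : J = ⊤
      · rw [hJ, hJt, ← Ideal.one_eq_top, mul_one]
      · exfalso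
        obtain ⟨M, hM, hJM⟩ := Ideal.exists_le_maximal J hJt
        have hJ0 : J ≠ ⊥ := by
          rintro rfl
          exact h1 (by rw [hJ]; simp)
        have hM0 : M ≠ ⊥ := by
          rintro rfl
          exact hJ0 (le_bot_iff.1 hJM)
        set q : PrI K := ⟨M, hM.isPrime, hM0⟩
        have hqJ : q.1 ∣ J := Ideal.dvd_iff_le.2 hJM
        have hqI : q.1 ∣ I := hqJ.trans (Dvd.intro_left _ hJ.symm)
        have hqX : q ∈ AP K P y := by
          rw [mem_AP]
          exact ⟨(dvd_nm_le hqI h1).trans h3, h2 q (Ideal.le_of_dvd hqI)⟩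
        have hqS : q.1 ∣ idS S := by
          unfold idS
          exact Finset.dvd_prod_of_mem (fun P : PrI K => P.1) (Finset.mem_filter.2 ⟨hqX, hqI⟩)
        refine hsq q hqX ?_
        rw [hJ, pow_two]
        exact mul_dvd_mul hqS hqJ
    have hSD : S ∈ DS np (AP K P y) y := by
      unfold DS
      rw [Finset.mem_filter, Finset.mem_powerset]
      refine ⟨Finset.filter_subset _ _, ?_⟩
      rw [← nm_idS, key]
      exact h3
    refine ⟨S, hSD, ?_, key⟩
    have : fS np S ≠ 0 := Finset.prod_ne_zero_iff.2 fun p _ =>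
        (by have := np_gt_one p; linarith)
    exact inv_ne_zero this
  · intro S hS _
    unfold DS at hS
    rw [Finset.mem_filter, Finset.mem_powerset] at hS
    have hfac : ∀ p ∈ AP K P y, ((if p.1 ∣ idS S then (np p - 1)⁻¹ else 0) +
        (1 + if p.1 ^ 2 ∣ idS S then -(np p / (np p - 1)) else 0)) =
        if p ∈ S then np p / (np p - 1) else 1 := by
      intro p _
      have hg := np_gt_one p
      have h0 : np p - 1 ≠ 0 := by linarith
      by_cases hp : p ∈ S
      · have hd : p.1 ∣ idS S := Finset.dvd_prod_of_mem (fun P : PrI K => P.1) hp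
        have hd2 : ¬ p.1 ^ 2 ∣ idS S := by
          intro h2
          have e : idS S = p.1 * idS (S.erase p) := by
            unfold idS
            exact (Finset.mul_prod_erase S (fun P : PrI K => P.1) hp).symm
          rw [e, pow_two] at h2
          have h3 : p.1 ∣ idS (S.erase p) := (mul_dvd_mul_iff_left p.2.2).1 h2
          have h4 := le_prime_prod (Ideal.le_of_dvd h3)
          exact (Finset.notMem_erase p S) h4
        rw [if_pos hd, if_neg hd2, if_pos hp]
        field_simp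
        ring
      · have hd : ¬ p.1 ∣ idS S := fun h => hp (le_prime_prod (Ideal.le_of_dvd h))
        have hd2 : ¬ p.1 ^ 2 ∣ idS S := fun h => hd ((dvd_pow_self p.1 two_ne_zero).trans h)
        rw [if_neg hd, if_neg hd2, if_neg hp]
        ring
    rw [Finset.prod_congr rfl hfac, nm_idS, Finset.prod_ite, Finset.prod_const_one, mul_one,
      Finset.filter_mem_eq_inter, Finset.inter_eq_right.2 hS.1, Finset.prod_div_distrib]
    unfold nS fS
    have a1 : (∏ p ∈ S, np p) ≠ 0 := Finset.prod_ne_zero_iff.2 fun p _ =>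
        (by have := np_gt_one p; positivity)
    have a3 : (∏ p ∈ S, (np p - 1)) ≠ 0 := Finset.prod_ne_zero_iff.2 fun p _ =>
        (by have := np_gt_one p; linarith)
    field_simp

open scoped Classical in
/-- GLA: the convolution identity. -/
theorem pf_GLA (_h : T_IDF) : T_GLA := by
  intro K _ _ _ P y _
  rw [← val_sum (K := K) (P := P) (y := y)]
  have e1 : ∀ I ∈ (fin_N (K := K) P y).toFinset, (nm I)⁻¹ *
      ∏ p ∈ AP K P y, ((if p.1 ∣ I then (np p - 1)⁻¹ else 0) +
        (1 + if p.1 ^ 2 ∣ I then -(np p / (np p - 1)) else 0)) =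
      ∑ A ∈ (AP K P y).powerset, ∑ B ∈ (AP K P y \ A).powerset,
        gw A B * (nS np A * nS np B ^ 2) * (if idS A * idS B ^ 2 ∣ I then (nm I)⁻¹ else 0) := by
    intro I _
    rw [← pair_sum, Finset.mul_sum]
    refine Finset.sum_congr rfl fun A _ => ?_
    rw [Finset.mul_sum]
    refine Finset.sum_congr rfl fun B _ => ?_
    split_ifs <;> ring
  rw [Finset.sum_congr rfl e1, Finset.sum_comm]
  refine Finset.sum_congr rfl fun A hA => ?_
  rw [Finset.sum_comm]
  refine Finset.sum_congr rfl fun B hB => ?_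
  rw [Finset.mem_powerset] at hA hB
  have hBX : B ⊆ AP K P y := hB.trans Finset.sdiff_subset
  rw [← Finset.mul_sum, mult_sum (mul_ne_zero (idS_ne A) (pow_ne_zero 2 (idS_ne B)))
    (Cp_D hA hBX), nm_mul, nm_pow, nm_idS, nm_idS]
  have a1 : nS np A ≠ 0 := Finset.prod_ne_zero_iff.2 fun p _ =>
        (by have := np_gt_one p; positivity)
  have a2 : nS np B ≠ 0 := Finset.prod_ne_zero_iff.2 fun p _ =>
        (by have := np_gt_one p; positivity)
  rw [← mul_assoc, mul_assoc (gw A B), mul_inv_cancel₀ (mul_ne_zero a1 (pow_ne_zero 2 a2)), mul_one]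

end Pool.Agent.H59.HH.GLA

namespace Pool.Agent.H59.HH

open Pool.Agent.H33.HH Pool.Agent.H28.RC Pool.Agent.H37.CV

/-- GLA: the convolution identity. -/
theorem pf_GLA (h : T_IDF) : T_GLA := GLA.pf_GLA h

end Pool.Agent.H59.HH
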