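import Pool.Agent.H33.HH.TC

set_option autoImplicit false

open NumberField Complex Filter Topology MeasureTheory
open scoped ContDiff nonZeroDivisors

namespace Pool.Agent.H59.HH

open Pool.Agent.H33.HH Pool.Agent.H28.RC Pool.Agent.H37.CV

/-- SLS: rescaling. -/
theorem pf_SLS : T_SLS := by
  intro f f' T A g hT hg hA hS
  refine ⟨fun t ht => ?_, ?_, fun t ht htT => ?_, fun t htT => ?_⟩
  · have h1 := hS.der (g * t) (mul_pos hg ht)
    have h2 : HasDerivAt (fun t : ℝ => g * t) g t := by
      simpa using (hasDerivAt_id t).const_mul g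
    have h3 := h1.comp t h2
    simpa [Function.comp_def, mul_comm] using h3
  · have h1 : ContinuousOn (fun t : ℝ => f' (g * t)) (Set.Ioi 0) :=
      hS.con.comp (by fun_prop) (fun t ht => mul_pos hg ht)
    exact continuousOn_const.mul h1
  · have h0 : g * t ≤ T := by
      rw [le_div_iff₀ hg] at htT; linarith [mul_comm g t]
    have e : t / (T / g) = g * t / T := by field_simp
    obtain ⟨h1, h2⟩ := hS.n1 (g * t) (mul_pos hg ht) h0
    rw [e]
    refine ⟨h1, ?_⟩
    rw [abs_mul, abs_of_pos hg]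
    calc g * |f' (g * t)| ≤ g * (A / (g * t) * (g * t / T) ^ (1 / 2 : ℝ)) :=
          mul_le_mul_of_nonneg_left h2 hg.le
      _ = A / t * (g * t / T) ^ (1 / 2 : ℝ) := by
          field_simp
  · have ht : 0 < t := lt_of_lt_of_le (div_pos hT hg) htT
    have h0 : T ≤ g * t := by
      rw [div_le_iff₀ hg] at htT; linarith [mul_comm g t]
    have e : t / (T / g) = g * t / T := by field_simp
    obtain ⟨h1, h2⟩ := hS.n2 (g * t) h0
    rw [e]
    refine ⟨h1, ?_⟩
    rw [abs_mul, abs_of_pos hg]
    calc g * |f' (g * t)| ≤ g * (A / (g * t) * (g * t / T) ^ (-(1 / 2) : ℝ)) :=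
          mul_le_mul_of_nonneg_left h2 hg.le
      _ = A / t * (g * t / T) ^ (-(1 / 2) : ℝ) := by
          field_simp

end Pool.Agent.H59.HH
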